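import Pool.Agent.helper69.DH.SpecR

/-!
# Project d2: (MP_5823cb_al), part R, row rFIX: existence of the fixed point (helper65)
-/

set_option autoImplicit false

open Filter Topology MeasureTheory
open scoped commutatorElement

namespace Pool.Agent.helper90.DH

open Pool.Agent.helper64.D2

/-- legal pairs. -/
def rFIX_L (P : RQ) (D : RD) (S : ℕ) (p : Finset ℤ × Finset ℤ) : Prop :=
  (∀ m ∈ p.1, m ∈ rTg S ∧ (∀ t < S, m / 2 ^ (S - t) ∉ D.H t) ∧
    (m ∈ P.T S ∨ rT2 (Function.update D.H S p.1) 0 S m ∨ rT3 P (Function.update D.H S p.1) (Function.update D.K S p.2) 0 S m)) ∧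
  (∀ n ∈ p.2, n ∈ rSg S ∧ (∀ t < S, n / 2 ^ (S - t) ∉ D.K t) ∧ rCR P (Function.update D.H S p.1) (Function.update D.K S p.2) 0 S n) ∧
  rDs P (Function.update D.H S p.1) (Function.update D.K S p.2) S

theorem rFIX_mono {A : ℕ → Finset ℤ} {S : ℕ} {h h' : Finset ℤ} (hh : h ⊆ h') (t : ℕ) :
    Function.update A S h t ⊆ Function.update A S h' t := by
  by_cases ht : t = S
  · subst ht
    rw [Function.update_self, Function.update_self]
    exact hh
  · rw [Function.update_of_ne ht, Function.update_of_ne ht]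

open Classical in
theorem rFIX (hMON : rMON_stmt) (hRIV : rRIV_stmt) (hBSE : rBSE_stmt) (hDNS : rDNS_stmt) : rFIX_stmt := by
  intro P S hP D hD
  by_cases hS : S < P.S1
  · exact ⟨∅, ∅, fun _ => ⟨rfl, rfl⟩, fun h => absurd hS (not_lt.2 h)⟩
  have hS1 : P.S1 ≤ S := not_lt.1 hS
  -- the legal pairs
  have hne : (((rTg S).powerset ×ˢ (rSg S).powerset).filter (fun p => rFIX_L P D S p)).Nonempty := by
    refine ⟨(∅, ∅), ?_⟩
    rw [Finset.mem_filter, Finset.mem_product, Finset.mem_powerset, Finset.mem_powerset]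
    refine ⟨⟨Finset.empty_subset _, Finset.empty_subset _⟩, ?_, ?_, ?_⟩
    · intro m hm
      exact absurd hm (Finset.notMem_empty m)
    · intro m hm
      exact absurd hm (Finset.notMem_empty m)
    · exact hBSE P S hP D hS1 hD
  obtain ⟨p, hp, hmax⟩ := Finset.exists_max_image _ (fun p : Finset ℤ × Finset ℤ => p.1.card + p.2.card) hne
  obtain ⟨h, k⟩ := p
  rw [Finset.mem_filter] at hp
  obtain ⟨-, hL⟩ := hp
  obtain ⟨h1, h2, h3⟩ := hL
  simp only at h1 h2 h3
  have hR : RIV P (Function.update D.H S h) (Function.update D.K S k) S := hRIV P S hP D h k hS1 hD h1 h2 h3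
  obtain ⟨h', hh'⟩ : ∃ h' : Finset ℤ, ∀ m, m ∈ h' ↔ m ∈ rTg S ∧ (∀ t < S, m / 2 ^ (S - t) ∉ D.H t) ∧
      (m ∈ P.T S ∨ rT2 (Function.update D.H S h) 0 S m ∨ rT3 P (Function.update D.H S h) (Function.update D.K S k) 0 S m) :=
    ⟨(rTg S).filter (fun m => (∀ t < S, m / 2 ^ (S - t) ∉ D.H t) ∧
      (m ∈ P.T S ∨ rT2 (Function.update D.H S h) 0 S m ∨ rT3 P (Function.update D.H S h) (Function.update D.K S k) 0 S m)), fun m => Finset.mem_filter⟩
  obtain ⟨k', hk'⟩ : ∃ k' : Finset ℤ, ∀ n, n ∈ k' ↔ n ∈ rSg S ∧ (∀ t < S, n / 2 ^ (S - t) ∉ D.K t) ∧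
      rCR P (Function.update D.H S h) (Function.update D.K S k) 0 S n :=
    ⟨(rSg S).filter (fun n => (∀ t < S, n / 2 ^ (S - t) ∉ D.K t) ∧
      rCR P (Function.update D.H S h) (Function.update D.K S k) 0 S n), fun m => Finset.mem_filter⟩
  have hsub : h ⊆ h' := fun m hm => (hh' m).2 (h1 m hm)
  have ksub : k ⊆ k' := fun n hn => (hk' n).2 (h2 n hn)
  have hmon : ∀ t, t ≤ S → Function.update D.H S h t ⊆ Function.update D.H S h' t ∧ Function.update D.K S k t ⊆ Function.update D.K S k' t :=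
    fun t _ => ⟨rFIX_mono hsub t, rFIX_mono ksub t⟩
  have hds : rDs P (Function.update D.H S h') (Function.update D.K S k') S := by
    have h4 := hDNS P S hP S (Function.update D.H S h) (Function.update D.K S k) hS1 le_rfl hR h' k'
      (fun m hm => ⟨((hh' m).1 hm).1, ((hh' m).1 hm).2.2⟩) (fun n hn => ⟨((hk' n).1 hn).1, ((hk' n).1 hn).2.2⟩)
    rw [Function.update_idem, Function.update_idem] at h4
    exact h4
  have hmem : (h', k') ∈ ((rTg S).powerset ×ˢ (rSg S).powerset).filter (fun p => rFIX_L P D S p) := by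
    rw [Finset.mem_filter, Finset.mem_product, Finset.mem_powerset, Finset.mem_powerset]
    refine ⟨⟨fun m hm => ((hh' m).1 hm).1, fun n hn => ((hk' n).1 hn).1⟩, ?_, ?_, hds⟩
    · intro m hm
      obtain ⟨a1, a2, a3⟩ := (hh' m).1 hm
      refine ⟨a1, a2, ?_⟩
      obtain ⟨b1, b2, -⟩ := hMON P _ _ _ _ 0 S m hmon
      rcases a3 with a3 | a3 | a3
      · exact Or.inl a3
      · exact Or.inr (Or.inl (b1 a3))
      · exact Or.inr (Or.inr (b2 a3))
    · intro n hn
      obtain ⟨a1, a2, a3⟩ := (hk' n).1 hn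
      obtain ⟨-, -, b3, -⟩ := hMON P _ _ _ _ 0 S n hmon
      exact ⟨a1, a2, b3 a3⟩
  have hcard := hmax _ hmem
  simp only at hcard
  have c1 := Finset.card_le_card hsub
  have c2 := Finset.card_le_card ksub
  have eh : h = h' := Finset.eq_of_subset_of_card_le hsub (by omega)
  have ek : k = k' := Finset.eq_of_subset_of_card_le ksub (by omega)
  refine ⟨h, k, fun h5 => absurd h5 hS, fun _ => ⟨⟨?_, ?_⟩, h3⟩⟩
  · intro m
    have h6 : m ∈ Function.update D.H S h S ↔ m ∈ h' := by
      rw [Function.update_self, ← eh]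
    rw [h6, hh' m]
    refine and_congr_right fun _ => and_congr_left fun _ => ?_
    refine forall_congr' fun t => forall_congr' fun ht => ?_
    rw [Function.update_of_ne ht.ne]
  · intro n
    have h6 : n ∈ Function.update D.K S k S ↔ n ∈ k' := by
      rw [Function.update_self, ← ek]
    rw [h6, hk' n]
    refine and_congr_right fun _ => and_congr_left fun _ => ?_
    refine forall_congr' fun t => forall_congr' fun ht => ?_
    rw [Function.update_of_ne ht.ne]

end Pool.Agent.helper90.DH
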