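import Pool.Agent.helper69.DH.SpecR2

/-!
# Project d2: (MP_5823cb_al), part R, row rLD3: the excess of a label which is not critical (helper65)
-/

set_option autoImplicit false

open Filter Topology MeasureTheory
open scoped commutatorElement

namespace Pool.Agent.helper90.DH

open Pool.Agent.helper64.D2

/-- pure part: variation of the products. -/
theorem rLD3_pure (R N : ℕ → ℝ) (s0 m : ℕ) (q β : ℝ) (hq : 0 < q) (hβ : 0 ≤ β) (h0m : s0 ≤ m) (hR : ∀ s, 0 ≤ R s ∧ R s ≤ 1)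
    (hN : ∀ s, s0 ≤ s → s ≤ m → 99 / 100 * q ≤ N s ∧ N s ≤ q ∧ q - N s ≤ β) (hRv : ∑ s ∈ Finset.Ico s0 m, |R (s + 1) - R s| ≤ 25601)
    (hNv : ∑ s ∈ Finset.Ico s0 m, |N (s + 1) - N s| ≤ 25601 * β) :
    |R m * (1 / N m - 1 / q)| + ∑ s ∈ Finset.Ico s0 m, |R (s + 1) * (1 / N (s + 1) - 1 / q) - R s * (1 / N s - 1 / q)| ≤ 2 ^ 16 * (β / q ^ 2) := by
  obtain ⟨c, hc⟩ : ∃ c, c = β / q ^ 2 := ⟨_, rfl⟩
  have hc0 : 0 ≤ c := by rw [hc]; positivity
  have he : ∀ s, s0 ≤ s → s ≤ m → 0 ≤ 1 / N s - 1 / q ∧ 1 / N s - 1 / q ≤ 100 / 99 * c := by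
    intro s h1 h2
    obtain ⟨a1, a2, a3⟩ := hN s h1 h2
    have hNp : 0 < N s := by nlinarith
    have e1 : 1 / N s - 1 / q = (q - N s) / (N s * q) := by field_simp
    rw [e1]
    refine ⟨div_nonneg (by linarith) (by positivity), ?_⟩
    rw [hc]
    have e2 : 100 / 99 * (β / q ^ 2) = β / (99 / 100 * q * q) := by field_simp
    rw [e2]
    apply div_le_div₀ hβ a3 (by positivity)
    exact mul_le_mul_of_nonneg_right a1 hq.le
  have hde : ∀ s ∈ Finset.Ico s0 m, |(1 / N (s + 1) - 1 / q) - (1 / N s - 1 / q)| ≤ (100 / 99) ^ 2 / q ^ 2 * |N (s + 1) - N s| := by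
    intro s hs
    rw [Finset.mem_Ico] at hs
    obtain ⟨a1, a2, -⟩ := hN s hs.1 (by omega)
    obtain ⟨b1, b2, -⟩ := hN (s + 1) (by omega) (by omega)
    have hNp : 0 < N s := by nlinarith
    have hNp' : 0 < N (s + 1) := by nlinarith
    have e1 : (1 / N (s + 1) - 1 / q) - (1 / N s - 1 / q) = -(N (s + 1) - N s) / (N (s + 1) * N s) := by
      field_simp
      ring
    rw [e1, abs_div, abs_neg, abs_of_pos (mul_pos hNp' hNp), div_le_iff₀ (mul_pos hNp' hNp)]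
    have h3 : (99 / 100 * q) * (99 / 100 * q) ≤ N (s + 1) * N s := mul_le_mul b1 a1 (by positivity) hNp'.le
    have h4 : 1 ≤ (100 / 99) ^ 2 / q ^ 2 * (N (s + 1) * N s) := by
      rw [div_mul_eq_mul_div, le_div_iff₀ (by positivity)]
      nlinarith
    calc |N (s + 1) - N s| = 1 * |N (s + 1) - N s| := (one_mul _).symm
      _ ≤ (100 / 99) ^ 2 / q ^ 2 * (N (s + 1) * N s) * |N (s + 1) - N s| := mul_le_mul_of_nonneg_right h4 (abs_nonneg _)
      _ = _ := by ring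
  have hterm : ∀ s ∈ Finset.Ico s0 m, |R (s + 1) * (1 / N (s + 1) - 1 / q) - R s * (1 / N s - 1 / q)| ≤
      100 / 99 * c * |R (s + 1) - R s| + (100 / 99) ^ 2 / q ^ 2 * |N (s + 1) - N s| := by
    intro s hs
    have h1 := hde s hs
    rw [Finset.mem_Ico] at hs
    obtain ⟨b1, b2⟩ := he (s + 1) (by omega) (by omega)
    have e1 : R (s + 1) * (1 / N (s + 1) - 1 / q) - R s * (1 / N s - 1 / q) =
        (R (s + 1) - R s) * (1 / N (s + 1) - 1 / q) + R s * ((1 / N (s + 1) - 1 / q) - (1 / N s - 1 / q)) := by ring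
    rw [e1]
    refine (abs_add_le _ _).trans (add_le_add ?_ ?_)
    · rw [abs_mul, abs_of_nonneg b1, mul_comm]
      exact mul_le_mul_of_nonneg_right b2 (abs_nonneg _)
    · rw [abs_mul, abs_of_nonneg (hR s).1]
      calc R s * |(1 / N (s + 1) - 1 / q) - (1 / N s - 1 / q)| ≤ 1 * |(1 / N (s + 1) - 1 / q) - (1 / N s - 1 / q)| :=
            mul_le_mul_of_nonneg_right (hR s).2 (abs_nonneg _)
        _ ≤ _ := by rw [one_mul]; exact h1
  have hlast : |R m * (1 / N m - 1 / q)| ≤ 100 / 99 * c := by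
    obtain ⟨b1, b2⟩ := he m h0m le_rfl
    rw [abs_mul, abs_of_nonneg b1, abs_of_nonneg (hR m).1]
    calc R m * (1 / N m - 1 / q) ≤ 1 * (1 / N m - 1 / q) := mul_le_mul_of_nonneg_right (hR m).2 b1
      _ ≤ _ := by rw [one_mul]; exact b2
  have hsum : ∑ s ∈ Finset.Ico s0 m, |R (s + 1) * (1 / N (s + 1) - 1 / q) - R s * (1 / N s - 1 / q)| ≤
      100 / 99 * c * 25601 + (100 / 99) ^ 2 / q ^ 2 * (25601 * β) := by
    refine (Finset.sum_le_sum hterm).trans ?_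
    rw [Finset.sum_add_distrib, ← Finset.mul_sum, ← Finset.mul_sum]
    refine add_le_add (mul_le_mul_of_nonneg_left hRv (by positivity)) (mul_le_mul_of_nonneg_left hNv (by positivity))
  have e3 : (100 / 99) ^ 2 / q ^ 2 * (25601 * β) = (100 / 99) ^ 2 * 25601 * c := by rw [hc]; ring
  rw [e3] at hsum
  rw [← hc]
  nlinarith

theorem rLD3 (hBAS : rBAS_stmt) (hBRN : rBRN_stmt) (hVAR : rVAR_stmt) (hNRM : rNRM_stmt) (hETA : rETA_stmt) (hABL : rABL_stmt) : rLD3_stmt := by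
  classical
  intro P S hP D hD F hF x i n hx hi hs0n hnS hcr b hb
  obtain ⟨hbr1, hbr2, -, hbr4, -, hbr6⟩ := hBRN P S hP
  obtain ⟨-, hbas2, -, -, -, -, -, hbas8, -⟩ := hBAS
  obtain ⟨N, hN⟩ : ∃ N, N = n - 1 := ⟨_, rfl⟩
  rw [← hN] at hcr hb ⊢
  have hN0 : P.s0 ≤ N := by omega
  have hNS : N ≤ S := by omega
  have hPN : RHY P N := hbr1 N hNS
  have hDN : ROK P D (N + 1) := fun s hs => hD s (by omega)
  have h216 : 216 ≤ P.s0 := hP.1.2.2.2.1
  have hq1 : 1 ≤ P.q := hP.1.1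
  have hq : (0 : ℝ) < P.q := by exact_mod_cast hq1
  obtain ⟨R, hR⟩ : ∃ R : ℕ → ℕ → ℝ, ∀ k s, R k s = reta D.H s (rpt P s k (ci s x)) := ⟨_, fun _ _ => rfl⟩
  have hR01 : ∀ k s, 0 ≤ R k s ∧ R k s ≤ 1 := by
    intro k s
    rw [hR]
    exact ⟨(hETA D.H s _).1.1, (hETA D.H s _).1.2.1⟩
  obtain ⟨z, hz⟩ : ∃ z : ℕ → ℝ, ∀ k, z k = ev (P.cm N k)⁻¹ x := ⟨_, fun _ => rfl⟩
  have hdist : ∀ k < P.q, ∀ s, P.s0 ≤ s → s ≤ N → |rpt P s k (ci s x) - z k| ≤ 5 / 4 / 2 ^ s := by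
    intro k hk s h1 h2
    rw [hz]
    exact hbr2 s N k x h1 h2 hNS hk
  obtain ⟨Bad, hBad⟩ : ∃ Bad : Finset ℕ, ∀ k, k ∈ Bad ↔ k < P.q ∧ rAc D.H (3 * 2 ^ 30 - 8) N (z k) ≠ ∅ :=
    ⟨(Finset.range P.q).filter (fun k => rAc D.H (3 * 2 ^ 30 - 8) N (z k) ≠ ∅), fun k => by rw [Finset.mem_filter, Finset.mem_range]⟩
  have hsub : Bad ⊆ Finset.range P.q := fun k hk => Finset.mem_range.2 ((hBad k).1 hk).1
  have hgood : ∀ k ∈ Finset.range P.q, k ∉ Bad → ∀ s, P.s0 ≤ s → s ≤ N → R k s = 1 := by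
    intro k hk hkB s h1 h2
    rw [Finset.mem_range] at hk
    have h3 : rAc D.H (3 * 2 ^ 30 - 8) N (z k) = ∅ := by
      by_contra h
      exact hkB ((hBad k).2 ⟨hk, h⟩)
    have h4 : rAc D.H (3 * 2 ^ 30 - 8) s (z k) = ∅ := by
      rw [Finset.eq_empty_iff_forall_notMem] at h3 ⊢
      intro t ht
      apply h3 t
      unfold rAc at ht ⊢
      rw [Finset.mem_filter, Finset.mem_range] at ht ⊢
      exact ⟨by omega, ht.2⟩
    rw [hR]
    exact (hETA D.H s (z k)).2.1 h4 _ (hdist k hk s h1 h2)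
  have hvar : ∀ k < P.q, ∑ s ∈ Finset.Ico P.s0 N, |R k (s + 1) - R k s| ≤ 25601 := by
    intro k hk
    have h1 := (hbr6 N k x hN0 hNS hk).1
    rw [← hz, abs_le] at h1
    have h2 := hx.1
    have h3 := hx.2
    have h4 := hVAR P N hPN D hDN (z k) (fun s => rpt P s k (ci s x)) (by linarith) (by linarith) (fun s h h' => hdist k hk s h h')
    simp only [hR]
    exact h4
  have hcard : (Bad.card : ℝ) ≤ rhp P D.H 0 N b := by
    have h0 : Bad.card ≤ rhp P D.H 0 N b := by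
      unfold rhp
      apply Finset.card_le_card
      intro k hk
      rw [hBad] at hk
      rw [Finset.mem_filter, Finset.mem_range]
      refine ⟨hk.1, ?_⟩
      obtain ⟨t, ht⟩ := Finset.nonempty_iff_ne_empty.2 hk.2
      unfold rAc at ht
      rw [Finset.mem_filter, Finset.mem_range] at ht
      obtain ⟨htN, n', hn', hle⟩ := ht
      refine ⟨t, by omega, n', hn', ?_⟩
      have h4 := hbr4 N k x b hN0 hNS hk.1 hb
      rw [← hz] at h4
      have h5 : |2 ^ t * rlp N (rbb P N k b) - 2 ^ t * z k| ≤ 5 := by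
        have h2t : (0 : ℝ) < 2 ^ t := by positivity
        rw [← mul_sub, abs_mul, abs_of_pos h2t]
        have h2N : (2 : ℝ) ^ t ≤ 2 ^ N := pow_le_pow_right₀ (by norm_num) (by omega)
        calc (2 : ℝ) ^ t * |rlp N (rbb P N k b) - z k| ≤ 2 ^ t * (5 / 2 ^ N) := mul_le_mul_of_nonneg_left h4 h2t.le
          _ = 5 * (2 ^ t / 2 ^ N) := by ring
          _ ≤ 5 * 1 := by
              refine mul_le_mul_of_nonneg_left ?_ (by norm_num)
              rw [div_le_one (by positivity)]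
              exact h2N
          _ = 5 := by ring
      have h6 : rrh 0 = 3 * 2 ^ 30 := by
        unfold rrh
        simp
      rw [h6]
      have h7 := abs_sub_le (2 ^ t * rlp N (rbb P N k b)) (2 ^ t * z k) (n' : ℝ)
      linarith
    exact_mod_cast h0
  -- the normalisation
  obtain ⟨Nn, hNn⟩ : ∃ Nn : ℕ → ℝ, ∀ s, Nn s = rNN P D.H s (ci s x) := ⟨_, fun _ => rfl⟩
  have hNsum : ∀ s, Nn s = ∑ k ∈ Finset.range P.q, R k s := by
    intro s
    rw [hNn]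
    unfold rNN
    exact Finset.sum_congr rfl fun k _ => (hR k s).symm
  have hN1 : ∀ s, P.s0 ≤ s → s ≤ N → 99 / 100 * (P.q : ℝ) ≤ Nn s ∧ Nn s ≤ P.q := by
    intro s h1 h2
    rw [hNn]
    refine hNRM P N hPN D hDN s (ci s x) h1 h2 (hbas8 s x (by omega) hx) ?_
    intro t ht h
    rw [← hbas2 s t x ht] at h
    exact hcr ⟨t, by omega, h⟩
  have hN2 : ∀ s, P.s0 ≤ s → s ≤ N → (P.q : ℝ) - Nn s ≤ rhp P D.H 0 N b := by
    intro s h1 h2
    have e1 : (P.q : ℝ) - Nn s = ∑ k ∈ Finset.range P.q, (1 - R k s) := by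
      rw [Finset.sum_sub_distrib, hNsum]
      simp
    rw [e1, ← Finset.sum_subset hsub (fun k hk hkB => by rw [hgood k hk hkB s h1 h2, sub_self])]
    refine le_trans ?_ hcard
    calc ∑ k ∈ Bad, (1 - R k s) ≤ ∑ k ∈ Bad, (1 : ℝ) := Finset.sum_le_sum fun k _ => by linarith [(hR01 k s).1]
      _ = Bad.card := by simp
  have hN3 : ∑ s ∈ Finset.Ico P.s0 N, |Nn (s + 1) - Nn s| ≤ 25601 * (rhp P D.H 0 N b : ℝ) := by
    have h1 : ∀ s ∈ Finset.Ico P.s0 N, |Nn (s + 1) - Nn s| ≤ ∑ k ∈ Bad, |R k (s + 1) - R k s| := by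
      intro s hs
      rw [Finset.mem_Ico] at hs
      have e1 : Nn (s + 1) - Nn s = ∑ k ∈ Bad, (R k (s + 1) - R k s) := by
        rw [hNsum, hNsum, ← Finset.sum_sub_distrib]
        refine (Finset.sum_subset hsub fun k hk hkB => ?_).symm
        rw [hgood k hk hkB s hs.1 (by omega), hgood k hk hkB (s + 1) (by omega) (by omega), sub_self]
      rw [e1]
      exact Finset.abs_sum_le_sum_abs _ _
    refine (Finset.sum_le_sum h1).trans ?_
    rw [Finset.sum_comm]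
    calc ∑ k ∈ Bad, ∑ s ∈ Finset.Ico P.s0 N, |R k (s + 1) - R k s| ≤ ∑ k ∈ Bad, (25601 : ℝ) :=
          Finset.sum_le_sum fun k hk => hvar k ((hBad k).1 hk).1
      _ = 25601 * (Bad.card : ℝ) := by rw [Finset.sum_const, nsmul_eq_mul]; ring
      _ ≤ _ := mul_le_mul_of_nonneg_left hcard (by norm_num)
  have hβ0 : (0 : ℝ) ≤ rhp P D.H 0 N b := Nat.cast_nonneg _
  have hpure := rLD3_pure (R i) Nn P.s0 N P.q (rhp P D.H 0 N b) hq hβ0 hN0 (hR01 i) (fun s h1 h2 => ⟨(hN1 s h1 h2).1, (hN1 s h1 h2).2, hN2 s h1 h2⟩)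
    (hvar i hi) hN3
  have habl := hABL (fun s => R i s * (1 / Nn s - 1 / P.q)) (fun s => F s x) P.s0 n 8 hs0n
    (fun s h1 h2 => hF.1 s P.s0 h1 (by omega) le_rfl (by omega) x)
  rw [← hN] at habl
  have e4 : ∑ s ∈ Finset.Ico P.s0 n, reta D.H s (rpt P s i (ci s x)) * (1 / rNN P D.H s (ci s x) - 1 / P.q) * (F (s + 1) x - F s x) =
      ∑ s ∈ Finset.Ico P.s0 n, R i s * (1 / Nn s - 1 / P.q) * (F (s + 1) x - F s x) :=
    Finset.sum_congr rfl fun s _ => by rw [hR, hNn]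
  rw [e4]
  refine habl.trans ?_
  calc 8 * (|R i N * (1 / Nn N - 1 / P.q)| + ∑ s ∈ Finset.Ico P.s0 N, |R i (s + 1) * (1 / Nn (s + 1) - 1 / P.q) - R i s * (1 / Nn s - 1 / P.q)|)
      ≤ 8 * (2 ^ 16 * ((rhp P D.H 0 N b : ℝ) / P.q ^ 2)) := mul_le_mul_of_nonneg_left hpure (by norm_num)
    _ = 2 ^ 19 / P.q * (rhp P D.H 0 N b / P.q) := by
        field_simp
        norm_num

end Pool.Agent.helper90.DH
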