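import Pool.Agent.helper69.DH.SpecR

/-!
# Project d2: (MP_5823cb_al), part R, row rREE: edges counted from the sources (helper65)
-/

set_option autoImplicit false

open Filter Topology MeasureTheory
open scoped commutatorElement

namespace Pool.Agent.helper90.DH

open Pool.Agent.helper64.D2

theorem rREE (hGEO : rGEO_stmt) : rREE_stmt := by
  classical
  intro P S hP s A Q hs0 hsS
  obtain ⟨-, hG⟩ := hGEO P S hP
  have hG1 : ∀ k < P.q, (∀ n : ℤ, |rcc P s k (rbb P s k n) - n| ≤ 2) ∧ (∀ n n' : ℤ, rbb P s k n = rbb P s k n' → |n - n'| ≤ 1) :=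
    fun k hk => ⟨(hG s k hs0 hsS hk).1, (hG s k hs0 hsS hk).2.1⟩
  unfold ree
  refine Finset.card_le_mul_card_image_of_maps_to (f := fun p : ℤ × ℕ => (p.2, rbb P s p.2 p.1)) ?_ 2 ?_
  · intro p hp
    rw [Finset.mem_filter, Finset.mem_product, Finset.mem_range] at hp
    rw [Finset.mem_filter, Finset.mem_product, Finset.mem_range]
    refine ⟨⟨hp.1.2, hp.2⟩, p.1, hp.1.1, ?_⟩
    exact ((hG1 p.2 hp.1.2).1 p.1).trans (by norm_num)
  · intro b hb
    by_contra hcon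
    rw [not_le, Finset.two_lt_card_iff] at hcon
    obtain ⟨x, y, z, hx, hy, hz, hxy, hxz, hyz⟩ := hcon
    rw [Finset.mem_filter, Finset.mem_filter, Finset.mem_product, Finset.mem_range] at hx hy hz
    obtain ⟨⟨⟨-, hx1⟩, -⟩, hx2⟩ := hx
    obtain ⟨⟨⟨-, hy1⟩, -⟩, hy2⟩ := hy
    obtain ⟨⟨⟨-, hz1⟩, -⟩, hz2⟩ := hz
    have ex1 : x.2 = b.1 := congrArg Prod.fst hx2
    have ey1 : y.2 = b.1 := congrArg Prod.fst hy2
    have ez1 : z.2 = b.1 := congrArg Prod.fst hz2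
    have ex2 : rbb P s x.2 x.1 = b.2 := congrArg Prod.snd hx2
    have ey2 : rbb P s y.2 y.1 = b.2 := congrArg Prod.snd hy2
    have ez2 : rbb P s z.2 z.1 = b.2 := congrArg Prod.snd hz2
    rw [ex1] at ex2 hx1
    rw [ey1] at ey2
    rw [ez1] at ez2
    have h1 := (hG1 b.1 hx1).2 x.1 y.1 (ex2.trans ey2.symm)
    have h2 := (hG1 b.1 hx1).2 x.1 z.1 (ex2.trans ez2.symm)
    have h3 := (hG1 b.1 hx1).2 y.1 z.1 (ey2.trans ez2.symm)
    have n1 : x.1 ≠ y.1 := fun h => hxy (Prod.ext h (ex1.trans ey1.symm))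
    have n2 : x.1 ≠ z.1 := fun h => hxz (Prod.ext h (ex1.trans ez1.symm))
    have n3 : y.1 ≠ z.1 := fun h => hyz (Prod.ext h (ey1.trans ez1.symm))
    rw [abs_le] at h1 h2 h3
    omega

end Pool.Agent.helper90.DH
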